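import Pool.Agent.R3B.StmtsB

/-!
# Squad R3B, row SLB: the strong solution in the ball
-/

set_option autoImplicit false

namespace Pool.Agent.R3B.H39

open Set Filter Topology MeasureTheory
open Pool.Agent.BE01F

theorem slice {ℓ : ℝ} {f : ℝ → ℝ → ℝ}
    (hc : ContinuousOn (fun z : ℝ × ℝ => f z.1 z.2) (Ici 0 ×ˢ Icc 0 ℓ)) {t : ℝ} (ht : 0 ≤ t) :
    ContinuousOn (f t) (Icc 0 ℓ) := by
  have h1 : ContinuousOn (fun r : ℝ => ((t, r) : ℝ × ℝ)) (Icc 0 ℓ) :=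
    (continuous_const.prodMk continuous_id).continuousOn
  exact hc.comp h1 (fun r hr => ⟨ht, hr⟩)

theorem slb (h1 : HrdStmt) (h2 : WkbStmt) (h3 : DrbStmt) (h4 : CtgStmt) : SlbStmt := by
  intro a α ℓ w V Z A B C ha hα hℓ hP
  refine
    { dom := fun t ht => h1 ℓ (w t) (Z t) hℓ (slice hP.cZ ht)
        (fun r hr hr' => hP.wr t r ht hr hr') (hP.wl t ht)
      vdom := fun t ht => ⟨rg (V t) (B t), h1 ℓ (V t) (B t) hℓ (slice hP.cB ht)
        (fun r hr hr' => hP.Vr t r ht hr hr') (hP.Vl t ht)⟩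
      wdom := fun t ht => (h3 a α ℓ w V Z A B C ha hα hℓ hP t ht).2.2.2.1
      du := fun t ht => (h3 a α ℓ w V Z A B C ha hα hℓ hP t ht).1
      dv := fun t ht => (h3 a α ℓ w V Z A B C ha hα hℓ hP t ht).2.1
      w_cont := fun t ht => (h3 a α ℓ w V Z A B C ha hα hℓ hP t ht).2.2.1
      G_cont := fun t ht => h4 a α ℓ w V Z A B C ha hα hℓ hP t ht
      v_bdd := fun t ht => (h3 a α ℓ w V Z A B C ha hα hℓ hP t ht).2.2.2.2
      eq := fun t ht => h2 a α ℓ w V Z A B C ha hα hℓ hP t ht }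

end Pool.Agent.R3B.H39
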